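import Mathlib

set_option autoImplicit false

/-!
The choice of the parameters.
-/

namespace Pool.Agent.W939.QR

theorem num (c δ : ℝ) (hc : 0 < c) (hδ : 0 < δ) : ∃ ε : ℝ, 0 < ε ∧ ∃ C : ℕ, ∀ n s : ℕ, 1 ≤ n →
    (n + 1) ^ C ≤ s → ∀ a L S : ℕ, (a : ℝ) ≤ (s : ℝ) ^ ε → (L : ℝ) ≤ (s : ℝ) ^ (2 - δ) →
      (S : ℝ) < 2 ^ ((s : ℝ) ^ ε) →
      ∃ r M d u0 : ℕ, r ≠ 0 ∧ u0 * n < 2 ^ r ∧ 1 ≤ M ∧ 1 ≤ d ∧ (L : ℝ) ≤ c * d * M ^ 2 ∧
        (S : ℝ) < 2 ^ d ∧ a ≤ u0 ∧ 2 * ((a + 1) * (5 * d ^ 4)) ≤ u0 ∧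
        4 * 16 ^ r * (2 * M + r * (8 * n ^ 2 + 1) + 2) ≤ s := by
  obtain ⟨δ', hδ'⟩ : ∃ δ', δ' = min δ 1 := ⟨_, rfl⟩
  have hδ0 : 0 < δ' := by rw [hδ']; exact lt_min hδ one_pos
  have hδ1 : δ' ≤ 1 := by rw [hδ']; exact min_le_right _ _
  have hδδ : δ' ≤ δ := by rw [hδ']; exact min_le_left _ _
  obtain ⟨ε, hε⟩ : ∃ ε, ε = δ' / 320 := ⟨_, rfl⟩
  have hε0 : 0 < ε := by rw [hε]; positivity
  have hε320 : 320 * ε = δ' := by rw [hε]; ring
  obtain ⟨K, hK⟩ : ∃ K : ℝ, K = 1024 / c + 700 := ⟨_, rfl⟩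
  have hK0 : 700 ≤ K := by
    rw [hK]
    have : 0 < 1024 / c := by positivity
    linarith
  have hKc : 1024 / c ≤ K := by rw [hK]; linarith
  obtain ⟨C1, hC1⟩ := exists_nat_ge (1 / (5 * ε))
  obtain ⟨C2, hC2⟩ := exists_nat_ge (Real.logb 2 K / (10 * ε))
  refine ⟨ε, hε0, max 1 (max C1 C2), fun n s hn hs a L S ha hL hS => ?_⟩
  obtain ⟨C, hC⟩ : ∃ C, C = max 1 (max C1 C2) := ⟨_, rfl⟩
  rw [← hC] at hs
  have hC0 : 1 ≤ C := by rw [hC]; exact le_max_left _ _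
  have hCR : (0 : ℝ) < C := by exact_mod_cast hC0
  have hCC1 : 1 / (5 * ε) ≤ (C : ℝ) := by
    refine hC1.trans ?_
    rw [hC]
    exact_mod_cast (le_max_left _ _).trans (le_max_right _ _)
  have hCC2 : Real.logb 2 K / (10 * ε) ≤ (C : ℝ) := by
    refine hC2.trans ?_
    rw [hC]
    exact_mod_cast (le_max_right _ _).trans (le_max_right _ _)
  have hsN : 2 ^ C ≤ s := (Nat.pow_le_pow_left (by omega) C).trans hs
  have hs1 : (1 : ℝ) ≤ s := by
    have h1 : 1 ≤ 2 ^ C := Nat.one_le_two_pow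
    exact_mod_cast h1.trans hsN
  have hs0 : (0 : ℝ) < s := by linarith
  obtain ⟨t, ht⟩ : ∃ t : ℝ, t = (s : ℝ) ^ ε := ⟨_, rfl⟩
  have ht1 : 1 ≤ t := by rw [ht]; exact Real.one_le_rpow hs1 hε0.le
  have ht0 : 0 < t := by linarith
  have hpow : ∀ k : ℕ, t ^ k = (s : ℝ) ^ (k * ε) := by
    intro k
    rw [ht, ← Real.rpow_natCast, ← Real.rpow_mul hs0.le]
    congr 1
    ring
  have hmono : ∀ i j : ℕ, i ≤ j → t ^ i ≤ t ^ j := fun i j hij => pow_le_pow_right₀ ht1 hij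
  -- n is small
  have hnt : (n : ℝ) + 1 ≤ t ^ 5 := by
    have h1 : (((n : ℝ) + 1) ^ C) ≤ s := by exact_mod_cast hs
    have h2 : (n : ℝ) + 1 = (((n : ℝ) + 1) ^ C) ^ (1 / (C : ℝ)) := by
      rw [← Real.rpow_natCast, ← Real.rpow_mul (by positivity), mul_one_div_cancel hCR.ne',
        Real.rpow_one]
    rw [h2]
    calc (((n : ℝ) + 1) ^ C) ^ (1 / (C : ℝ)) ≤ (s : ℝ) ^ (1 / (C : ℝ)) :=
          Real.rpow_le_rpow (by positivity) h1 (by positivity)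
      _ ≤ (s : ℝ) ^ ((5 : ℕ) * ε) := by
          apply Real.rpow_le_rpow_of_exponent_le hs1
          rw [div_le_iff₀ hCR]
          rw [div_le_iff₀ (by positivity)] at hCC1
          push_cast
          linarith
      _ = t ^ 5 := (hpow 5).symm
  -- t is large
  have htK : K ≤ t ^ 10 := by
    have h1 : K = (2 : ℝ) ^ (Real.logb 2 K) := by
      rw [Real.rpow_logb (by norm_num) (by norm_num) (by linarith)]
    rw [h1, hpow]
    calc (2 : ℝ) ^ (Real.logb 2 K) ≤ (2 : ℝ) ^ (C * (10 * ε)) := by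
          apply Real.rpow_le_rpow_of_exponent_le (by norm_num)
          rwa [div_le_iff₀ (by positivity)] at hCC2
      _ = ((2 : ℝ) ^ (C : ℝ)) ^ (10 * ε) := by rw [← Real.rpow_mul (by norm_num)]
      _ ≤ (s : ℝ) ^ (10 * ε) := by
          apply Real.rpow_le_rpow (by positivity) _ (by positivity)
          rw [Real.rpow_natCast]
          exact_mod_cast hsN
      _ = (s : ℝ) ^ ((10 : ℕ) * ε) := by push_cast; rfl
  have hst : t ^ 320 ≤ s := by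
    rw [hpow]
    calc (s : ℝ) ^ ((320 : ℕ) * ε) ≤ (s : ℝ) ^ (1 : ℝ) := by
          apply Real.rpow_le_rpow_of_exponent_le hs1
          push_cast
          rw [hε320]
          exact hδ1
      _ = s := Real.rpow_one _
  have ht700 : 700 ≤ t ^ 10 := hK0.trans htK
  -- r
  obtain ⟨r, hr⟩ : ∃ r, r = Nat.log 2 ⌊t ^ 20⌋₊ := ⟨_, rfl⟩
  have hfl : 1 ≤ ⌊t ^ 20⌋₊ := Nat.le_floor (by push_cast; exact one_le_pow₀ ht1)
  have hr1 : (2 : ℝ) ^ r ≤ t ^ 20 := by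
    have h1 : 2 ^ r ≤ ⌊t ^ 20⌋₊ := by
      rw [hr]
      exact Nat.pow_log_le_self 2 (by omega)
    have h2 : ((2 ^ r : ℕ) : ℝ) ≤ (⌊t ^ 20⌋₊ : ℝ) := by exact_mod_cast h1
    push_cast at h2
    exact h2.trans (Nat.floor_le (by positivity))
  have hr2 : t ^ 20 < 2 * (2 : ℝ) ^ r := by
    have h1 : ⌊t ^ 20⌋₊ < 2 ^ (r + 1) := by
      rw [hr]
      exact Nat.lt_pow_succ_log_self (by norm_num) _
    have h2 := (Nat.floor_lt (by positivity : (0 : ℝ) ≤ t ^ 20)).1 h1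
    push_cast at h2
    have h3 : (2 : ℝ) ^ (r + 1) = 2 ^ r * 2 := pow_succ _ _
    rw [h3] at h2
    linarith
  have hr16 : (16 : ℝ) ^ r ≤ t ^ 80 := by
    calc (16 : ℝ) ^ r = ((2 : ℝ) ^ r) ^ 4 := by
          rw [← pow_mul, mul_comm r 4, pow_mul]
          norm_num
      _ ≤ (t ^ 20) ^ 4 := pow_le_pow_left₀ (by positivity) hr1 4
      _ = t ^ 80 := by rw [← pow_mul]
  have hrr : (r : ℝ) ≤ t ^ 20 := by
    have h1 : r ≤ 2 ^ r := Nat.lt_two_pow_self.le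
    have h2 : (r : ℝ) ≤ (2 : ℝ) ^ r := by exact_mod_cast h1
    exact h2.trans hr1
  -- M
  obtain ⟨M, hM⟩ : ∃ M, M = s / (16 * 16 ^ r) := ⟨_, rfl⟩
  have h16 : 0 < 16 * 16 ^ r := by positivity
  have hM1 : M * (16 * 16 ^ r) ≤ s := by rw [hM]; exact Nat.div_mul_le_self _ _
  have hM2 : s < 16 * 16 ^ r * (M + 1) := by rw [hM]; exact Nat.lt_mul_div_succ s h16
  have ht110 : 32 * t ^ 80 ≤ (s : ℝ) := by
    calc 32 * t ^ 80 ≤ t ^ 10 * t ^ 80 := mul_le_mul_of_nonneg_right (by linarith) (by positivity)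
      _ = t ^ 90 := by rw [← pow_add]
      _ ≤ t ^ 320 := hmono _ _ (by norm_num)
      _ ≤ s := hst
  have hMpos : 1 ≤ M := by
    rw [hM, Nat.le_div_iff_mul_le h16, one_mul]
    have h1 : (16 : ℝ) * 16 ^ r ≤ s := by
      calc (16 : ℝ) * 16 ^ r ≤ 16 * t ^ 80 := mul_le_mul_of_nonneg_left hr16 (by norm_num)
        _ ≤ 32 * t ^ 80 := mul_le_mul_of_nonneg_right (by norm_num) (by positivity)
        _ ≤ s := ht110
    exact_mod_cast h1
  have hM3 : (s : ℝ) ≤ 32 * t ^ 80 * M := by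
    have h1 : (s : ℝ) < 16 * 16 ^ r * (M + 1) := by exact_mod_cast hM2
    have h2 : (1 : ℝ) ≤ M := by exact_mod_cast hMpos
    calc (s : ℝ) ≤ 16 * 16 ^ r * (M + 1) := h1.le
      _ ≤ 16 * t ^ 80 * (M + M) := by
          apply mul_le_mul _ (by linarith) (by positivity) (by positivity)
          exact mul_le_mul_of_nonneg_left hr16 (by norm_num)
      _ = 32 * t ^ 80 * M := by ring
  -- d
  obtain ⟨d, hd⟩ : ∃ d, d = ⌈t⌉₊ := ⟨_, rfl⟩
  have hd1 : t ≤ d := by rw [hd]; exact Nat.le_ceil t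
  have hd2 : (d : ℝ) ≤ 2 * t := by
    have h1 : (⌈t⌉₊ : ℝ) < t + 1 := Nat.ceil_lt_add_one ht0.le
    rw [hd]
    linarith
  have hdpos : 1 ≤ d := by
    have : (1 : ℝ) ≤ d := ht1.trans hd1
    exact_mod_cast this
  have hat : (a : ℝ) ≤ t := by rw [ht]; exact ha
  refine ⟨r, M, d, 2 * ((a + 1) * (5 * d ^ 4)) + a, ?_, ?_, hMpos, hdpos, ?_, ?_,
    Nat.le_add_left _ _, Nat.le_add_right _ _, ?_⟩
  · rintro rfl
    have h1 : t ^ 10 ≤ t ^ 20 := hmono _ _ (by norm_num)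
    rw [pow_zero] at hr2
    linarith
  · have h1 : ((2 * ((a + 1) * (5 * d ^ 4)) + a : ℕ) : ℝ) ≤ 321 * t ^ 5 := by
      push_cast
      have e1 : (a : ℝ) + 1 ≤ 2 * t := by linarith
      have e2 : (d : ℝ) ^ 4 ≤ (2 * t) ^ 4 := pow_le_pow_left₀ (by positivity) hd2 4
      have e3 : ((a : ℝ) + 1) * (5 * (d : ℝ) ^ 4) ≤ (2 * t) * (5 * (2 * t) ^ 4) :=
        mul_le_mul e1 (mul_le_mul_of_nonneg_left e2 (by norm_num)) (by positivity) (by positivity)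
      have e4 : t ≤ t ^ 5 := by
        calc t = t ^ 1 := (pow_one t).symm
          _ ≤ t ^ 5 := hmono _ _ (by norm_num)
      calc 2 * (((a : ℝ) + 1) * (5 * (d : ℝ) ^ 4)) + a
          ≤ 2 * ((2 * t) * (5 * (2 * t) ^ 4)) + t := by linarith
        _ = 320 * t ^ 5 + t := by ring
        _ ≤ 321 * t ^ 5 := by linarith
    have h2 : (n : ℝ) ≤ t ^ 5 := by linarith
    have h3 : ((2 * ((a + 1) * (5 * d ^ 4)) + a : ℕ) : ℝ) * n ≤ 321 * t ^ 5 * t ^ 5 :=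
      mul_le_mul h1 h2 (by positivity) (by positivity)
    have h4 : 321 * t ^ 5 * t ^ 5 < (2 : ℝ) ^ r := by
      have e1 : 321 * t ^ 5 * t ^ 5 = 321 * t ^ 10 := by ring
      have e2 : 700 * t ^ 10 ≤ t ^ 20 := by
        calc 700 * t ^ 10 ≤ t ^ 10 * t ^ 10 := mul_le_mul_of_nonneg_right ht700 (by positivity)
          _ = t ^ 20 := by rw [← pow_add]
      have e3 : 0 < t ^ 10 := by positivity
      rw [e1]
      linarith
    have h5 : (((2 * ((a + 1) * (5 * d ^ 4)) + a) * n : ℕ) : ℝ) < ((2 ^ r : ℕ) : ℝ) := by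
      push_cast
      push_cast at h3
      linarith
    exact_mod_cast h5
  · have h1 : (s : ℝ) ^ (2 - δ) ≤ (s : ℝ) ^ (2 - δ') :=
      Real.rpow_le_rpow_of_exponent_le hs1 (by linarith)
    have h2 : (s : ℝ) ^ (2 - δ') * t ^ 320 = (s : ℝ) ^ 2 := by
      rw [hpow, ← Real.rpow_add hs0, ← Real.rpow_natCast (s : ℝ) 2]
      congr 1
      push_cast
      rw [hε320]
      ring
    have h3 : (s : ℝ) ^ 2 ≤ (32 * t ^ 80 * M) ^ 2 := pow_le_pow_left₀ hs0.le hM3 2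
    have h4 : (L : ℝ) * t ^ 320 ≤ (c * d * M ^ 2) * t ^ 320 := by
      calc (L : ℝ) * t ^ 320 ≤ (s : ℝ) ^ (2 - δ') * t ^ 320 :=
            mul_le_mul_of_nonneg_right (hL.trans h1) (by positivity)
        _ = (s : ℝ) ^ 2 := h2
        _ ≤ (32 * t ^ 80 * M) ^ 2 := h3
        _ = 1024 * (t ^ 160 * (M : ℝ) ^ 2) := by ring
        _ ≤ (c * t ^ 160) * (t ^ 160 * (M : ℝ) ^ 2) := by
            apply mul_le_mul_of_nonneg_right _ (by positivity)
            have e1 : 1024 / c ≤ t ^ 160 := hKc.trans (htK.trans (hmono _ _ (by norm_num)))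
            rw [div_le_iff₀ hc] at e1
            linarith
        _ = (c * 1 * (M : ℝ) ^ 2) * t ^ 320 := by ring
        _ ≤ (c * d * M ^ 2) * t ^ 320 := by
            apply mul_le_mul_of_nonneg_right _ (by positivity)
            apply mul_le_mul_of_nonneg_right _ (by positivity)
            apply mul_le_mul_of_nonneg_left _ hc.le
            exact_mod_cast hdpos
    exact le_of_mul_le_mul_right h4 (by positivity)
  · refine hS.trans_le ?_
    rw [← ht, ← Real.rpow_natCast]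
    exact Real.rpow_le_rpow_of_exponent_le (by norm_num) hd1
  · have h1 : ((4 * 16 ^ r * (r * (8 * n ^ 2 + 1) + 2) : ℕ) : ℝ) ≤ (s : ℝ) / 2 := by
      push_cast
      have e1 : (n : ℝ) ^ 2 ≤ t ^ 10 := by
        calc (n : ℝ) ^ 2 ≤ (t ^ 5) ^ 2 := pow_le_pow_left₀ (by positivity) (by linarith) 2
          _ = t ^ 10 := by rw [← pow_mul]
      have e2 : (1 : ℝ) ≤ t ^ 10 := one_le_pow₀ ht1
      have e3 : (8 * (n : ℝ) ^ 2 + 1) ≤ 9 * t ^ 10 := by linarith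
      have e4 : (r : ℝ) * (8 * (n : ℝ) ^ 2 + 1) ≤ t ^ 20 * (9 * t ^ 10) :=
        mul_le_mul hrr e3 (by positivity) (by positivity)
      have e5 : (1 : ℝ) ≤ t ^ 30 := one_le_pow₀ ht1
      have e6 : (r : ℝ) * (8 * (n : ℝ) ^ 2 + 1) + 2 ≤ 11 * t ^ 30 := by
        have : t ^ 20 * (9 * t ^ 10) = 9 * t ^ 30 := by ring
        linarith
      calc 4 * (16 : ℝ) ^ r * ((r : ℝ) * (8 * (n : ℝ) ^ 2 + 1) + 2)
          ≤ 4 * t ^ 80 * (11 * t ^ 30) := by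
            apply mul_le_mul _ e6 (by positivity) (by positivity)
            exact mul_le_mul_of_nonneg_left hr16 (by norm_num)
        _ = 44 * t ^ 110 := by ring
        _ ≤ t ^ 10 * t ^ 110 / 2 := by
            have : 0 < t ^ 110 := by positivity
            nlinarith
        _ = t ^ 120 / 2 := by rw [← pow_add]
        _ ≤ t ^ 320 / 2 := by
            apply div_le_div_of_nonneg_right _ (by norm_num)
            exact hmono _ _ (by norm_num)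
        _ ≤ (s : ℝ) / 2 := div_le_div_of_nonneg_right hst (by norm_num)
    have h2 : 2 * (4 * 16 ^ r * (r * (8 * n ^ 2 + 1) + 2)) ≤ s := by
      have : (2 : ℝ) * ((4 * 16 ^ r * (r * (8 * n ^ 2 + 1) + 2) : ℕ) : ℝ) ≤ s := by linarith
      exact_mod_cast this
    have h3 : 4 * 16 ^ r * (2 * M + r * (8 * n ^ 2 + 1) + 2) =
        4 * 16 ^ r * (r * (8 * n ^ 2 + 1) + 2) + 4 * 16 ^ r * (2 * M) := by ring
    have h4 : 2 * (4 * 16 ^ r * (2 * M)) = M * (16 * 16 ^ r) := by ring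
    omega

end Pool.Agent.W939.QR
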