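import Mathlib
import Pool.Agent.W939.PT.Abs
import Pool.Agent.Helper600R2.Sharp.Restr
import Pool.Agent.Helper600R2.CM.M7
import Pool.Agent.Helper600R2.CM.M8
import Pool.Agent.Helper600R2.CM.M9
import Pool.Agent.Helper600R2.CM.M10

set_option autoImplicit false

/-!
Semantic refutations with lines of nearly quadratic size: an abstract lower bound for systems of
parity constraints with boundary expansion.
-/

namespace Pool.Agent.W939.QR

open Finset H542 H542.MC Pool.Agent.W939.PT

/-- the substitution of literals and constants, as a formula -/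
def sub {V W : Type} (σ : W → Bool ⊕ (V × Bool)) : Fml W → Pool.Agent.H564R2.QF.Fml V
  | .const b => .const b
  | .var v => match σ v with
    | .inl c => .const c
    | .inr (u, true) => .neg (.var u)
    | .inr (u, false) => .var u
  | .neg f => .neg (sub σ f)
  | .and f g => .and (sub σ f) (sub σ g)
  | .or f g => .or (sub σ f) (sub σ g)

theorem sub_eval {V W : Type} (y : V → Bool) (σ : W → Bool ⊕ (V × Bool)) (f : Fml W) :
    (sub σ f).eval y = f.eval (fun b => lw y (σ b)) := by
  induction f with
  | const b => rfl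
  | var v =>
    simp only [sub, Fml.eval]
    rcases h : σ v with c | ⟨u, b⟩
    · rfl
    · cases b
      · show y u = xor (y u) false
        rw [Bool.xor_false]
      · show (!(y u)) = xor (y u) true
        rw [Bool.xor_true]
  | neg f ih => simp only [sub, Pool.Agent.H564R2.QF.Fml.eval, Fml.eval, ih]
  | and f g ihf ihg => simp only [sub, Pool.Agent.H564R2.QF.Fml.eval, Fml.eval, ihf, ihg]
  | or f g ihf ihg => simp only [sub, Pool.Agent.H564R2.QF.Fml.eval, Fml.eval, ihf, ihg]

theorem sub_size {V W : Type} (σ : W → Bool ⊕ (V × Bool)) (f : Fml W) :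
    (sub σ f).size ≤ f.size := by
  induction f with
  | const b => rfl
  | var v =>
    simp only [sub, Fml.size]
    rcases h : σ v with c | ⟨u, b⟩
    · simp [Pool.Agent.H564R2.QF.Fml.size]
    · cases b <;> simp [Pool.Agent.H564R2.QF.Fml.size]
  | neg f ih => exact ih
  | and f g ihf ihg => exact add_le_add ihf ihg
  | or f g ihf ihg => exact add_le_add ihf ihg

theorem DTd_of_QD {ι : Type} [Fintype ι] [DecidableEq ι] {D : ℕ} {f : (ι → Bool) → Bool}
    (h : Pool.Agent.Helper600R2.CM.QD Pool.Agent.Helper600R2.CM.Cst D f) : DTd D f := by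
  induction h with
  | leaf hf =>
    rename_i D f
    have h1 : DTd (∅ : Finset ι).card f := DTd_of_dep ∅ fun y y' _ => hf y y'
    rw [card_empty] at h1
    exact h1.mono (Nat.zero_le D)
  | node v g _ hfg ih =>
    rename_i D f _
    refine Or.inr ⟨v, fun b => ?_⟩
    have h1 : (fun y => f (Function.update y v b)) = fun y => g b (Function.update y v b) := by
      funext y
      rw [hfg]
      simp
    rw [h1]
    exact (ih b).update v b

theorem dtree : Pool.Agent.Helper600R2.CM.S_DT :=
  Pool.Agent.Helper600R2.CM.M10.proof_M10 (Pool.Agent.Helper600R2.CM.M9.proof_M9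
    Pool.Agent.Helper600R2.CM.M7.proof_M7 Pool.Agent.Helper600R2.CM.M8.proof_M8)

section

variable {ι X : Type} [Fintype ι] [DecidableEq ι] {M : ℕ}

/-- parity of the bits in the blocks of `A` -/
def parA (A : Finset ι) (y : ι × Fin M → Bool) : Bool :=
  decide (Odd (univ.filter fun v : ι × Fin M => v.1 ∈ A ∧ y v = true).card)

theorem parA_congr (A : Finset ι) (J : ι → Fin M) (z : ι × Fin M → Bool) (y y' : ι → Bool)
    (h : ∀ p ∈ A, y p = y' p) : parA A (mv J z y) = parA A (mv J z y') := by
  have hh : (univ.filter fun v : ι × Fin M => v.1 ∈ A ∧ mv J z y v = true) =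
      univ.filter fun v : ι × Fin M => v.1 ∈ A ∧ mv J z y' v = true := by
    apply Finset.filter_congr
    intro v _
    constructor
    · rintro ⟨h1, h2⟩
      refine ⟨h1, ?_⟩
      rw [← h2]
      unfold mv
      rw [h v.1 h1]
    · rintro ⟨h1, h2⟩
      refine ⟨h1, ?_⟩
      rw [← h2]
      unfold mv
      rw [h v.1 h1]
  unfold parA
  rw [hh]

theorem parA_flip (A : Finset ι) (J : ι → Fin M) (z : ι × Fin M → Bool) (p : ι) (hp : p ∈ A)
    (y : ι → Bool) :
    parA A (mv J z (Function.update y p (!(y p)))) = !(parA A (mv J z y)) := by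
  unfold parA
  refine M_FLIP_par (fun v : ι × Fin M => v.1 ∈ A) (mv J z y)
    (mv J z (Function.update y p (!(y p)))) (p, J p) hp ?_ ?_
  · unfold mv
    simp
  · intro v hv
    unfold mv
    by_cases h : v.2 = J v.1
    · rw [if_pos h, if_pos h]
      rw [Function.update_of_ne]
      intro h1
      apply hv
      rw [← h1, ← h]
    · rw [if_neg h, if_neg h]

/-- The abstract lower bound. -/
theorem core : ∃ c : ℝ, 0 < c ∧ ∀ (ι X W : Type) [Fintype ι] [DecidableEq ι] [DecidableEq X]
    (A : X → Finset ι) (u0 : ℕ), BExG A u0 → ∀ M d a L S : ℕ, 1 ≤ M → 1 ≤ d →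
    (L : ℝ) ≤ c * d * M ^ 2 → (S : ℝ) < 2 ^ d → a ≤ u0 → 2 * ((a + 1) * (5 * d ^ 4)) ≤ u0 →
    ∀ (f : X → Bool) (Corr : X → (W → Bool) → Prop) (σ : W → Bool ⊕ ((ι × Fin M) × Bool)),
    (∀ y x, parA (A x) y = f x → Corr x (fun b => lw y (σ b))) →
    Ref W X Corr a L S → False := by
  classical
  obtain ⟨c, hc, hrestr⟩ := Pool.Agent.Helper600R2.Sharp.restr
  refine ⟨c, hc, ?_⟩
  intro ι X W _ _ _ A u0 hB M d a L S hM hd hL hS hau hah f Corr σ hσ R
  obtain ⟨J, x, hdeg⟩ := hrestr ι M d S (fun j => sub σ (R.line j)) hM hd (by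
    intro i
    refine le_trans ?_ hL
    exact_mod_cast (sub_size σ (R.line i)).trans (R.size_le i)) hS
  let g : Fin S → (ι → Bool) → Bool := fun j y => (sub σ (R.line j)).eval (mv J x y)
  have hdep : ∀ j, dep (g j) ≤ 5 * d ^ 4 := by
    intro j
    refine dep_le (DTd_of_QD (dtree ι d (g j) ?_))
    have h1 := hdeg j
    have h2 : Pool.Agent.Helper600R2.CM.tr (g j) = fun y : ι → Bool =>
        if (sub σ (R.line j)).eval (fun v => if v.2 = J v.1 then y v.1 else x v) = true
        then (1 : ℝ) else 0 := by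
      funext y
      rfl
    rw [h2]
    exact h1
  obtain ⟨j, hj⟩ := R.final
  obtain ⟨y, hy⟩ := loc hB (con := fun v y => parA (A v) (mv J x y) = f v)
    (by
      intro v y y' hyy
      rw [parA_congr (A v) J x y y' hyy])
    (by
      intro v i hi y
      rw [parA_flip (A v) J x i hi y]
      cases parA (A v) (mv J x y) <;> cases f v <;> simp)
    a (5 * d ^ 4) hau hah S g hdep
    (by
      intro j
      obtain ⟨P, Q, hP1, hQ1, hP2, hP3⟩ := R.sound j
      refine ⟨P, Q, hP1, hQ1, hP2, fun y hy hyQ => ?_⟩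
      show (sub σ (R.line j)).eval (mv J x y) = true
      rw [sub_eval]
      refine hP3 _ (fun p hp => ?_) (fun v hv => hσ _ v (hyQ v hv))
      have h3 : (sub σ (R.line p)).eval (mv J x y) = true := hy p hp
      rw [sub_eval] at h3
      exact h3) j
  have h4 : (sub σ (R.line j)).eval (mv J x y) = true := hy
  rw [sub_eval, hj] at h4
  exact absurd h4 (by decide)

end

end Pool.Agent.W939.QR
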