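import Mathlib
import Pool.Agent.H542R2.MC.Stubs
import Pool.Agent.W939.PT.Hash

set_option autoImplicit false

/-!
Linear hashing by evaluation of polynomials over the field with `2 ^ r` elements: for every point
`a` of the field there are `r` parities, and two different vectors agree on all `r` parities for
less than `n` points.
-/

namespace Pool.Agent.W939.QR

open Finset H542 H542.MC Pool.Agent.W939.PT

variable {n : ℕ}

theorem par_eq_sum (T : Finset (Fin n)) (x : Fin n → Bool) :
    (if par T x = true then (1 : ZMod 2) else 0) =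
      ∑ i : Fin n, (if i ∈ T then (1 : ZMod 2) else 0) * (if x i = true then 1 else 0) := by
  have h1 : ∑ i : Fin n, (if i ∈ T then (1 : ZMod 2) else 0) * (if x i = true then 1 else 0) =
      ((T.filter fun i => x i = true).card : ZMod 2) := by
    rw [card_filter, Nat.cast_sum, ← Finset.sum_filter_add_sum_filter_not univ (fun i => i ∈ T)]
    rw [Finset.sum_congr rfl (g := fun i => ((if x i = true then 1 else 0 : ℕ) : ZMod 2)),
      Finset.sum_eq_zero (s := univ.filter fun i => i ∉ T), add_zero]
    · congr 1
      ext i
      simp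
    · intro i hi
      rw [mem_filter] at hi
      rw [if_neg hi.2, zero_mul]
    · intro i hi
      rw [mem_filter] at hi
      rw [if_pos hi.2, one_mul]
      split_ifs <;> simp
  rw [h1, par]
  by_cases h : Odd (T.filter fun i => x i = true).card
  · rw [decide_eq_true h, if_pos rfl, (ZMod.natCast_eq_one_iff_odd).2 h]
  · rw [decide_eq_false h, if_neg (by decide), eq_comm,
      (ZMod.natCast_eq_zero_iff_even).2 (Nat.not_odd_iff_even.1 h)]

/-- a family of parities in which two different vectors agree on few groups -/
theorem exists_rs (n r : ℕ) (hr : r ≠ 0) : ∃ (F : Type) (_ : Fintype F) (_ : DecidableEq F),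
    Fintype.card F = 2 ^ r ∧ ∃ T : F → Fin r → Finset (Fin n),
      ∀ x x' : Fin n → Bool, x ≠ x' →
        (univ.filter fun a : F => ∀ l, par (T a l) x = par (T a l) x').card ≤ n := by
  classical
  let F := GaloisField 2 r
  have : Fintype F := Fintype.ofFinite F
  have hcard : Fintype.card F = 2 ^ r := by
    rw [← Nat.card_eq_fintype_card]
    exact GaloisField.card 2 r hr
  have hfin : Module.finrank (ZMod 2) F = r := GaloisField.finrank 2 hr
  let b : Module.Basis (Fin r) (ZMod 2) F := Module.finBasisOfFinrankEq (ZMod 2) F hfin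
  refine ⟨F, inferInstance, inferInstance, hcard,
    fun a l => univ.filter fun i : Fin n => b.repr (a ^ i.val) l = 1, fun x x' hx => ?_⟩
  -- the difference polynomial
  let e : (Fin n → Bool) → Fin n → ZMod 2 := fun x i => if x i = true then 1 else 0
  let p : Polynomial F := ∑ i : Fin n,
    Polynomial.C (algebraMap (ZMod 2) F (e x i - e x' i)) * Polynomial.X ^ i.val
  have hcoef : ∀ i : Fin n, p.coeff i.val = algebraMap (ZMod 2) F (e x i - e x' i) := by
    intro i
    show (∑ i : Fin n, Polynomial.C (algebraMap (ZMod 2) F (e x i - e x' i)) *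
      Polynomial.X ^ i.val).coeff i.val = _
    rw [Polynomial.finsetSum_coeff, Finset.sum_eq_single i]
    · rw [Polynomial.coeff_C_mul, Polynomial.coeff_X_pow, if_pos rfl, mul_one]
    · intro j _ hj
      rw [Polynomial.coeff_C_mul, Polynomial.coeff_X_pow, if_neg, mul_zero]
      exact fun h => hj (Fin.ext h.symm)
    · intro h
      exact absurd (mem_univ i) h
  have hp : p ≠ 0 := by
    intro h
    apply hx
    funext i
    have h1 := hcoef i
    rw [h, Polynomial.coeff_zero] at h1
    have h2 : e x i - e x' i = 0 := by
      apply (algebraMap (ZMod 2) F).injective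
      rw [← h1, map_zero]
    have h3 : (if x i = true then (1 : ZMod 2) else 0) = if x' i = true then 1 else 0 :=
      sub_eq_zero.1 h2
    cases hxi : x i <;> cases hxi' : x' i
    · rfl
    · rw [hxi, hxi'] at h3
      simp at h3
    · rw [hxi, hxi'] at h3
      simp at h3
    · rfl
  have hdeg : p.natDegree ≤ n := by
    apply Polynomial.natDegree_sum_le_of_forall_le
    intro i _
    exact (Polynomial.natDegree_C_mul_X_pow_le _ _).trans i.isLt.le
  have hroot : ∀ a : F, (∀ l, par (univ.filter fun i : Fin n => b.repr (a ^ i.val) l = 1) x =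
      par (univ.filter fun i : Fin n => b.repr (a ^ i.val) l = 1) x') → p.IsRoot a := by
    intro a ha
    have h1 : p.eval a = ∑ i : Fin n, (e x i - e x' i) • (a ^ i.val) := by
      show Polynomial.eval a (∑ i : Fin n, Polynomial.C (algebraMap (ZMod 2) F (e x i - e x' i)) *
        Polynomial.X ^ i.val) = _
      rw [Polynomial.eval_finsetSum]
      refine Finset.sum_congr rfl fun i _ => ?_
      rw [Polynomial.eval_mul, Polynomial.eval_C, Polynomial.eval_pow, Polynomial.eval_X,
        Algebra.smul_def]
    rw [Polynomial.IsRoot, h1]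
    apply b.repr.injective
    rw [map_zero]
    ext l
    rw [map_sum, Finsupp.finsetSum_apply]
    have h2 : ∀ x : Fin n → Bool, ∑ i : Fin n, e x i * b.repr (a ^ i.val) l =
        if par (univ.filter fun i : Fin n => b.repr (a ^ i.val) l = 1) x = true
          then (1 : ZMod 2) else 0 := by
      intro x
      rw [par_eq_sum]
      refine Finset.sum_congr rfl fun i _ => ?_
      rw [mul_comm]
      congr 1
      have h3 : ∀ z : ZMod 2, z = if z = 1 then 1 else 0 := by decide
      rw [h3 (b.repr (a ^ i.val) l)]
      simp only [mem_filter, mem_univ, true_and]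
    have h3 : ∑ i : Fin n, (b.repr ((e x i - e x' i) • a ^ i.val)) l =
        ∑ i : Fin n, e x i * b.repr (a ^ i.val) l - ∑ i : Fin n, e x' i * b.repr (a ^ i.val) l := by
      rw [← Finset.sum_sub_distrib]
      refine Finset.sum_congr rfl fun i _ => ?_
      rw [map_smul, Finsupp.smul_apply, smul_eq_mul, sub_mul]
    rw [h3, h2, h2, ha l, sub_self]
    rfl
  calc (univ.filter fun a : F => ∀ l, par (univ.filter fun i : Fin n =>
        b.repr (a ^ i.val) l = 1) x = par (univ.filter fun i : Fin n =>
        b.repr (a ^ i.val) l = 1) x').card ≤ p.roots.toFinset.card := by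
        refine card_le_card fun a ha => ?_
        rw [mem_filter] at ha
        rw [Multiset.mem_toFinset, Polynomial.mem_roots hp]
        exact hroot a ha.2
    _ ≤ Multiset.card p.roots := Multiset.toFinset_card_le _
    _ ≤ p.natDegree := Polynomial.card_roots' p
    _ ≤ n := hdeg

/-- the blocks of a vector: the groups with the values of the parities -/
def blk {F : Type} [Fintype F] [DecidableEq F] {r : ℕ} (T : F → Fin r → Finset (Fin n))
    (x : Fin n → Bool) : Finset (F × (Fin r → Bool)) :=
  univ.filter fun p => ∀ l, par (T p.1 l) x = p.2 l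

/-- boundary expansion -/
theorem blk_expa {F : Type} [Fintype F] [DecidableEq F] {r : ℕ} (T : F → Fin r → Finset (Fin n))
    (hT : ∀ x x' : Fin n → Bool, x ≠ x' →
      (univ.filter fun a : F => ∀ l, par (T a l) x = par (T a l) x').card ≤ n)
    (u0 : ℕ) (hu : u0 * n < Fintype.card F) : BExG (blk T) u0 := by
  classical
  intro U hU
  have key : ∀ x ∈ U, ∃ a : F, ∀ x' ∈ U, x' ≠ x → ¬ ∀ l, par (T a l) x = par (T a l) x' := by
    intro x hx
    by_contra hcon
    push Not at hcon
    have h1 : (univ : Finset F) ⊆ (U.erase x).biUnion fun x' =>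
        univ.filter fun a : F => ∀ l, par (T a l) x = par (T a l) x' := by
      intro a _
      obtain ⟨x', h2, h3, h4⟩ := hcon a
      rw [mem_biUnion]
      exact ⟨x', mem_erase.2 ⟨h3, h2⟩, mem_filter.2 ⟨mem_univ _, h4⟩⟩
    have h2 := card_le_card h1
    have h3 : ((U.erase x).biUnion fun x' =>
        univ.filter fun a : F => ∀ l, par (T a l) x = par (T a l) x').card ≤ u0 * n := by
      refine card_biUnion_le.trans ?_
      calc ∑ x' ∈ U.erase x, (univ.filter fun a : F => ∀ l, par (T a l) x = par (T a l) x').card
          ≤ ∑ x' ∈ U.erase x, n := Finset.sum_le_sum fun x' hx' =>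
            hT x x' (mem_erase.1 hx').1.symm
        _ = (U.erase x).card * n := by rw [sum_const, smul_eq_mul]
        _ ≤ u0 * n := Nat.mul_le_mul_right _ ((card_le_card (erase_subset _ _)).trans hU)
    rw [card_univ] at h2
    omega
  have : Nonempty F := Fintype.card_pos_iff.1 (by omega)
  choose! a ha using key
  refine card_le_card_of_injOn (fun x => (a x, fun l => par (T (a x) l) x)) ?_ ?_
  · intro x hx
    rw [mem_coe] at hx
    rw [mem_coe]
    simp only [privG, mem_filter, mem_univ, true_and]
    refine ⟨x, hx, ?_, ?_⟩
    · rw [blk, mem_filter]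
      exact ⟨mem_univ _, fun l => rfl⟩
    · intro x' hx' hne h
      rw [blk, mem_filter] at h
      exact ha x hx x' hx' hne fun l => (h.2 l).symm
  · intro x hx x' hx' h
    rw [mem_coe] at hx hx'
    by_contra hne
    have h1 : a x = a x' := congrArg Prod.fst h
    have h2 : (fun l => par (T (a x) l) x) = fun l => par (T (a x') l) x' := congrArg Prod.snd h
    refine ha x hx x' hx' (fun h => hne h.symm) fun l => ?_
    have h3 : par (T (a x) l) x = par (T (a x') l) x' := congrFun h2 l
    rw [h3, h1]

end Pool.Agent.W939.QR
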