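import Mathlib
import Pool.Agent.W939.PT.Prog
import Pool.Agent.W939.PT.BPMain
import Pool.Agent.W939.QR.Core
import Pool.Agent.W939.QR.RS

set_option autoImplicit false

/-!
Formulas and branching programs for the parity of the hardwired bits in the blocks of an input.
-/

namespace Pool.Agent.W939.QR

open Finset H542 H542.MC Pool.Agent.W939.FR Pool.Agent.W939.PT

variable {n r M : ℕ} {F : Type} [Fintype F] [DecidableEq F]

/-- number of the bits of a block which are true, if it is a block of `x` -/
def cnt (T : F → Fin r → Finset (Fin n)) (y : (F × (Fin r → Bool)) × Fin M → Bool)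
    (x : Fin n → Bool) (p : F × (Fin r → Bool)) : ℕ :=
  if p ∈ blk T x then ∑ j : Fin M, (if y (p, j) = true then 1 else 0) else 0

theorem parA_cnt (T : F → Fin r → Finset (Fin n)) (y : (F × (Fin r → Bool)) × Fin M → Bool)
    (x : Fin n → Bool) : parA (blk T x) y = decide (Odd (∑ p, cnt T y x p)) := by
  unfold parA
  have e4 : (univ.filter fun v : (F × (Fin r → Bool)) × Fin M =>
      v.1 ∈ blk T x ∧ y v = true).card = ∑ p, cnt T y x p := by
    rw [card_filter, Fintype.sum_prod_type]
    refine sum_congr rfl fun p _ => ?_
    unfold cnt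
    by_cases h : p ∈ blk T x
    · simp [h]
    · simp [h]
  rw [e4]

/-- parity of the hardwired bits of a block -/
def parG {ι : Type} (i : Fin n) (p : ι) : List (Fin M) → Tm (ι × Fin M) n
  | [] => ffT i
  | j :: l => .node false (.inr (p, j)) (.inl false) (parG i p l) (ffT i)

theorem parG_gates {ι : Type} (i : Fin n) (p : ι) : ∀ l : List (Fin M),
    (parG i p l).gates = 1 + 2 * l.length
  | [] => rfl
  | j :: l => by
    simp only [parG, Tm.gates, parG_gates i p l, ffT_gates, List.length_cons]
    ring

theorem parG_val {ι : Type} (i : Fin n) (p : ι) (y : ι × Fin M → Bool) (x : Fin n → Bool) :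
    ∀ l : List (Fin M), (parG i p l).val y x = (l.map fun j => y (p, j)).foldr xor false
  | [] => ffT_val i y x
  | j :: l => by
    simp only [parG, Tm.val, ffT_val, lv, Bool.false_eq_true, if_false, List.map_cons,
      List.foldr_cons, parG_val i p y x l, Bool.xor_false, Bool.or_false]
    exact Bool.xor_comm _ _

theorem foldr_bits {ι : Type} (p : ι) (y : ι × Fin M → Bool) :
    ((univ : Finset (Fin M)).toList.map fun j => y (p, j)).foldr xor false =
      decide (Odd (∑ j : Fin M, (if y (p, j) = true then 1 else 0))) := by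
  rw [← Finset.sum_map_toList, ← foldr_xor]
  congr 1
  refine List.map_congr_left fun j _ => ?_
  cases y (p, j) <;> simp

/-- A formula which computes `parA`. -/
theorem prog_tree (hn : 1 ≤ n) (hN : 1 ≤ Fintype.card (F × (Fin r → Bool)))
    (T : F → Fin r → Finset (Fin n)) :
    ∃ t : Tm ((F × (Fin r → Bool)) × Fin M) n, 1 ≤ t.gates ∧
      t.gates + 1 ≤ 4 * Fintype.card (F × (Fin r → Bool)) ^ 2 *
        (2 * M + r * (8 * n ^ 2 + 1) + 2) ∧
      ∀ (y : (F × (Fin r → Bool)) × Fin M → Bool) (x : Fin n → Bool),
        t.val y x = parA (blk T x) y := by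
  classical
  obtain ⟨i⟩ : Nonempty (Fin n) := ⟨⟨0, hn⟩⟩
  obtain ⟨k, hk1, hk2⟩ : ∃ k, Fintype.card (F × (Fin r → Bool)) ≤ 2 ^ k ∧
      4 ^ k ≤ 4 * Fintype.card (F × (Fin r → Bool)) ^ 2 := by
    obtain ⟨N, hN'⟩ : ∃ N, N = Fintype.card (F × (Fin r → Bool)) := ⟨_, rfl⟩
    rw [← hN'] at hN ⊢
    refine ⟨Nat.log 2 N + 1, (Nat.lt_pow_succ_log_self (by norm_num) N).le, ?_⟩
    have h1 : 2 ^ Nat.log 2 N ≤ N := Nat.pow_log_le_self 2 (by omega)
    have h2 : 4 ^ (Nat.log 2 N + 1) = 4 * (2 ^ Nat.log 2 N) ^ 2 := by
      rw [show (4 : ℕ) = 2 ^ 2 by norm_num, ← pow_mul, ← pow_mul, ← pow_add]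
      congr 1
      ring
    rw [h2]
    exact Nat.mul_le_mul_left _ (Nat.pow_le_pow_left h1 2)
  choose P hP1 hP2 hP3 using fun q : F × Fin r =>
    par_tree (V := (F × (Fin r → Bool)) × Fin M) i (T q.1 q.2)
  -- the formula of a block
  let tp : F × (Fin r → Bool) → Tm ((F × (Fin r → Bool)) × Fin M) n := fun p =>
    conjP (fun l => P (p.1, l)) (univ.filter fun l => p.2 l = true)
      (parG i p (univ : Finset (Fin M)).toList) (univ : Finset (Fin r)).toList
  have tp_gates : ∀ p, 1 ≤ (tp p).gates ∧ (tp p).gates ≤ 1 + 2 * M + r * (8 * n ^ 2 + 1) := by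
    intro p
    have h1 := conjP_gates (fun l => P (p.1, l)) (8 * n ^ 2) (fun l => hP2 (p.1, l))
      (univ.filter fun l => p.2 l = true)
      (parG i p (univ : Finset (Fin M)).toList) (univ : Finset (Fin r)).toList
    rw [parG_gates, length_toList, length_toList, card_univ, Fintype.card_fin, card_univ,
      Fintype.card_fin] at h1
    exact ⟨le_trans (by omega) h1.1, h1.2⟩
  have tp_val : ∀ p (y : (F × (Fin r → Bool)) × Fin M → Bool) (x : Fin n → Bool),
      (tp p).val y x = decide (Odd (cnt T y x p)) := by
    intro p y x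
    show (conjP _ _ _ _).val y x = _
    rw [conjP_val, parG_val, foldr_bits]
    have e1 : decide (∀ l ∈ (univ : Finset (Fin r)).toList,
        ((P (p.1, l)).val y x = true ↔ l ∈ univ.filter fun l => p.2 l = true)) =
        decide (p ∈ blk T x) := by
      congr 1
      rw [blk, mem_filter]
      simp only [mem_toList, mem_univ, true_implies, hP3, mem_filter, true_and, eq_iff_iff]
      constructor
      · intro h l
        have h2 := h l
        cases h3 : par (T p.1 l) x <;> cases h4 : p.2 l <;> simp_all
      · intro h l
        rw [h l]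
    rw [e1]
    unfold cnt
    by_cases h : p ∈ blk T x
    · simp [h]
    · simp [h]
  obtain ⟨t, h1, h2, h3⟩ := bal_xor (V := (F × (Fin r → Bool)) × Fin M) i
    (1 + 2 * M + r * (8 * n ^ 2 + 1))
    (by omega) k ((univ : Finset (F × (Fin r → Bool))).toList.map tp)
    (by rw [List.length_map, length_toList, card_univ]; exact hk1)
    (by
      intro t ht
      obtain ⟨p, -, rfl⟩ := List.mem_map.1 ht
      exact tp_gates p)
  refine ⟨t, h1, ?_, fun y x => ?_⟩
  · refine h2.trans ?_
    have e : 1 + 2 * M + r * (8 * n ^ 2 + 1) + 1 = 2 * M + r * (8 * n ^ 2 + 1) + 2 := by ring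
    rw [e]
    exact Nat.mul_le_mul_right _ hk2
  · rw [h3, List.map_map, parA_cnt]
    have e3 : ((fun t => t.val y x) ∘ tp) = fun p => decide (Odd (cnt T y x p)) := by
      funext p
      exact tp_val p y x
    rw [e3, foldr_xor, Finset.sum_map_toList]

/-- A branching program which computes `parA`. -/
theorem prog_bp (T : F → Fin r → Finset (Fin n)) :
    ∃ P : List (Ins ((F × (Fin r → Bool)) × Fin M) n),
      P.length ≤ Fintype.card (F × (Fin r → Bool)) * (M + r * (n + 1)) ∧
      ∀ (y : (F × (Fin r → Bool)) × Fin M → Bool) (x : Fin n → Bool),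
        exec y x P 0 false false = parA (blk T x) y := by
  classical
  let bl : F × (Fin r → Bool) → List (Ins ((F × (Fin r → Bool)) × Fin M) n) := fun p =>
    tests (T p.1) (univ.filter fun l => p.2 l = true)
      (((univ : Finset (Fin M)).toList.map fun j => (p, j)).map Ins.add)
      (univ : Finset (Fin r)).toList
  have bl_len : ∀ p, (bl p).length ≤ M + r * (n + 1) := by
    intro p
    have h1 := tests_length (T p.1) (univ.filter fun l => p.2 l = true)
      (((univ : Finset (Fin M)).toList.map fun j => (p, j)).map
        (Ins.add (n := n))) (univ : Finset (Fin r)).toList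
    rw [List.length_map, List.length_map, length_toList, length_toList, card_univ,
      Fintype.card_fin, card_univ, Fintype.card_fin] at h1
    exact h1
  have len : ∀ L : List (F × (Fin r → Bool)),
      (L.flatMap bl).length ≤ L.length * (M + r * (n + 1)) := by
    intro L
    induction L with
    | nil => simp
    | cons p L ih =>
      rw [List.flatMap_cons, List.length_append, List.length_cons, Nat.add_mul]
      have := bl_len p
      omega
  have val : ∀ (y : (F × (Fin r → Bool)) × Fin M → Bool) (x : Fin n → Bool)
      (L : List (F × (Fin r → Bool))) (b : Bool),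
      exec y x (L.flatMap bl) 0 false b =
        xor b ((L.map fun p => decide (Odd (cnt T y x p))).foldr xor false) := by
    intro y x L
    induction L with
    | nil => intro b; simp [exec]
    | cons p L ih =>
      intro b
      rw [List.flatMap_cons]
      show exec y x (tests (T p.1) _ _ (univ : Finset (Fin r)).toList ++ _) 0 false b = _
      rw [exec_tests, exec_adds, ih, ih, List.map_cons, List.foldr_cons]
      have e1 : (∀ l ∈ (univ : Finset (Fin r)).toList, (par (T p.1 l) x = true ↔
          l ∈ univ.filter fun l => p.2 l = true)) ↔ p ∈ blk T x := by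
        rw [blk, mem_filter]
        simp only [mem_toList, mem_univ, true_implies, mem_filter, true_and]
        constructor
        · intro h l
          have h2 := h l
          cases h3 : par (T p.1 l) x <;> cases h4 : p.2 l <;> simp_all
        · intro h l
          rw [h l]
      rw [List.map_map]
      have e2 : ((univ : Finset (Fin M)).toList.map (y ∘ fun j => (p, j))).foldr xor false =
          decide (Odd (∑ j : Fin M, (if y (p, j) = true then 1 else 0))) := foldr_bits p y
      rw [e2]
      by_cases h : p ∈ blk T x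
      · have hc : cnt T y x p = ∑ j : Fin M, (if y (p, j) = true then 1 else 0) := if_pos h
        rw [if_pos (e1.2 h), hc, Bool.xor_assoc]
      · have hc : cnt T y x p = 0 := if_neg h
        rw [if_neg (fun h' => h (e1.1 h')), hc]
        simp
  refine ⟨(univ : Finset (F × (Fin r → Bool))).toList.flatMap bl, ?_, fun y x => ?_⟩
  · have h1 := len (univ : Finset (F × (Fin r → Bool))).toList
    rwa [length_toList, card_univ] at h1
  · rw [val, foldr_xor, Finset.sum_map_toList, Bool.false_xor, parA_cnt]

end Pool.Agent.W939.QR
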