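import Mathlib
import Pool.Agent.W939.QR.Progs
import Pool.Agent.W939.QR.Num
import Pool.Agent.W939.PT.Circ

set_option autoImplicit false

/-!
Lower bounds for refutations with lines of size `s ^ (2 - δ)`, for all partial truth tables and
all sizes `s ≥ (n + 1) ^ C`.
-/

namespace Pool.Agent.W939.QR

open Finset H542 H542.MC Pool.Agent.W939.FR Pool.Agent.W939.PT

/-- An abstract version: `hfam` says that programs with at most `s` instructions can be described. -/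
theorem main (δ : ℝ) (hδ : 0 < δ) : ∃ ε : ℝ, 0 < ε ∧ ∃ C : ℕ, ∀ n s : ℕ, 1 ≤ n →
    (n + 1) ^ C ≤ s → ∀ (W : Type) (f : (Fin n → Bool) → Bool)
      (Corr : (Fin n → Bool) → (W → Bool) → Prop),
      (∀ (F : Type) [Fintype F] [DecidableEq F] (r M : ℕ) (T : F → Fin r → Finset (Fin n)),
        1 ≤ Fintype.card (F × (Fin r → Bool)) → 1 ≤ M →
        4 * Fintype.card (F × (Fin r → Bool)) ^ 2 * (2 * M + r * (8 * n ^ 2 + 1) + 2) ≤ s →
        ∃ σ : W → Bool ⊕ (((F × (Fin r → Bool)) × Fin M) × Bool), ∀ y x,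
          parA (blk T x) y = f x → Corr x (fun b => lw y (σ b))) →
      ∀ a L S : ℕ, (a : ℝ) ≤ (s : ℝ) ^ ε → (L : ℝ) ≤ (s : ℝ) ^ (2 - δ) →
        Nonempty (Ref W (Fin n → Bool) Corr a L S) → (2 : ℝ) ^ ((s : ℝ) ^ ε) ≤ S := by
  classical
  obtain ⟨c, hc, hcore⟩ := core
  obtain ⟨ε, hε, C, hnum⟩ := num c δ hc hδ
  refine ⟨ε, hε, C, fun n s hn hs W f Corr hfam a L S ha hL ⟨R⟩ => ?_⟩
  by_contra hS
  push Not at hS
  obtain ⟨r, M, d, u0, k1, k2, k3, k4, k5, k6, k7, k8, k9⟩ := hnum n s hn hs a L S ha hL hS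
  obtain ⟨F, _, _, hF, T, hT⟩ := exists_rs n r k1
  have hcard : Fintype.card (F × (Fin r → Bool)) = 4 ^ r := by
    rw [Fintype.card_prod, Fintype.card_fun, Fintype.card_bool, Fintype.card_fin, hF, ← mul_pow]
    norm_num
  obtain ⟨σ, hσ⟩ := hfam F r M T (by rw [hcard]; exact Nat.one_le_pow _ _ (by norm_num)) k3 (by
    rw [hcard, ← pow_mul, mul_comm r 2, pow_mul]
    exact k9)
  exact hcore (F × (Fin r → Bool)) (Fin n → Bool) W (blk T) u0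
    (blk_expa T hT u0 (by rw [hF]; exact k2)) M d a L S k3 k4 k5 k6 k7 k8 f Corr σ hσ R

/-- Circuits and formulas: `Corr` is any condition which follows from being the description of a
formula which agrees with the table. -/
theorem main_circ (δ : ℝ) (hδ : 0 < δ) : ∃ ε : ℝ, 0 < ε ∧ ∃ C : ℕ, ∀ n s w : ℕ, 1 ≤ n →
    (n + 1) ^ C ≤ s → n + s ≤ 2 ^ w → ∀ (T : (Fin n → Bool) → Option Bool)
      (Corr : (Fin n → Bool) → (Bits s w → Bool) → Prop),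
      (∀ x z, Valid n z → Once n z → (∀ b, T x = some b → output z x = b) → Corr x z) →
      ∀ a L S : ℕ, (a : ℝ) ≤ (s : ℝ) ^ ε → (L : ℝ) ≤ (s : ℝ) ^ (2 - δ) →
        Nonempty (Ref (Bits s w) (Fin n → Bool) Corr a L S) →
          (2 : ℝ) ^ ((s : ℝ) ^ ε) ≤ S := by
  obtain ⟨ε, hε, C, h⟩ := main δ hδ
  refine ⟨ε, hε, C, fun n s w hn hs hw T Corr hCorr a L S ha hL hR => ?_⟩
  refine h n s hn hs (Bits s w) (fun x => (T x).getD false) Corr ?_ a L S ha hL hR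
  intro F _ _ r M U h1 h2 h3
  obtain ⟨t, t1, t2, t3⟩ := prog_tree (M := M) hn h1 U
  obtain ⟨σ, hσ⟩ := conv_tree (w := w) hn t t1 (by omega) hw
  refine ⟨fun b => match σ b with
    | .inl c => .inl c
    | .inr v => .inr (v, false), fun y x hx => ?_⟩
  have e : (fun b => lw y (match σ b with
      | .inl c => (.inl c : Bool ⊕ (((F × (Fin r → Bool)) × Fin M) × Bool))
      | .inr v => .inr (v, false))) = fun b => lv y (σ b) := by
    funext b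
    rcases σ b with c | v
    · rfl
    · show xor (y v) false = y v
      exact Bool.xor_false _
  rw [e]
  obtain ⟨q1, q2, q3⟩ := hσ y
  refine hCorr x _ q1 q2 fun b hb => ?_
  rw [q3, t3, hx, hb]
  rfl

/-- Circuits and partial truth tables. -/
theorem circ (δ : ℝ) (hδ : 0 < δ) : ∃ ε : ℝ, 0 < ε ∧ ∃ C : ℕ, ∀ n s w : ℕ, 1 ≤ n →
    (n + 1) ^ C ≤ s → n + s ≤ 2 ^ w → ∀ (T : (Fin n → Bool) → Option Bool) (a L S : ℕ),
      (a : ℝ) ≤ (s : ℝ) ^ ε → (L : ℝ) ≤ (s : ℝ) ^ (2 - δ) →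
        Nonempty (Ref (Bits s w) (Fin n → Bool) (Agrees T) a L S) →
          (2 : ℝ) ^ ((s : ℝ) ^ ε) ≤ S := by
  obtain ⟨ε, hε, C, h⟩ := main_circ δ hδ
  exact ⟨ε, hε, C, fun n s w hn hs hw T a L S ha hL hR =>
    h n s w hn hs hw T (Agrees T) (fun x z k1 _ k3 => ⟨k1, k3⟩) a L S ha hL hR⟩

/-- Branching programs and partial truth tables. -/
theorem bp (δ : ℝ) (hδ : 0 < δ) : ∃ ε : ℝ, 0 < ε ∧ ∃ C : ℕ, ∀ n s v w : ℕ, 1 ≤ n →
    (n + 1) ^ C ≤ s → n ≤ 2 ^ v → s + 2 ≤ 2 ^ w →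
      ∀ (T : (Fin n → Bool) → Option Bool) (a L S : ℕ),
      (a : ℝ) ≤ (s : ℝ) ^ ε → (L : ℝ) ≤ (s : ℝ) ^ (2 - δ) →
        Nonempty (Ref (BBits s v w) (Fin n → Bool) (BAgrees T) a L S) →
          (2 : ℝ) ^ ((s : ℝ) ^ ε) ≤ S := by
  obtain ⟨ε, hε, C, h⟩ := main δ hδ
  refine ⟨ε, hε, C, fun n s v w hn hs hv hw T a L S ha hL hR => ?_⟩
  refine h n s hn hs (BBits s v w) (fun x => (T x).getD false) (BAgrees T) ?_ a L S ha hL hR
  intro F _ _ r M U h1 h2 h3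
  obtain ⟨P, t1, t3⟩ := prog_bp (M := M) U
  have t4 : 4 * P.length + 4 ≤ s + 1 := by
    obtain ⟨N, hN⟩ : ∃ N, N = Fintype.card (F × (Fin r → Bool)) := ⟨_, rfl⟩
    rw [← hN] at h1 h3 t1
    have e1 : r * (n + 1) ≤ r * (8 * n ^ 2 + 1) := by
      apply Nat.mul_le_mul_left
      have : n ≤ n ^ 2 := Nat.le_self_pow (by norm_num) n
      omega
    have e2 : P.length ≤ N * (M + r * (8 * n ^ 2 + 1)) :=
      t1.trans (Nat.mul_le_mul_left _ (by omega))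
    have e3 : N ≤ N ^ 2 := Nat.le_self_pow (by norm_num) N
    have e4 : N * (M + r * (8 * n ^ 2 + 1)) ≤ N ^ 2 * (M + r * (8 * n ^ 2 + 1)) :=
      Nat.mul_le_mul_right _ e3
    have e5 : 4 * N ^ 2 * (2 * M + r * (8 * n ^ 2 + 1) + 2) =
      4 * (N ^ 2 * (M + r * (8 * n ^ 2 + 1))) + 4 * (N ^ 2 * M) + 8 * N ^ 2 := by ring
    have e6 : 1 ≤ N ^ 2 := Nat.one_le_pow _ _ h1
    omega
  obtain ⟨σ, hσ⟩ := conv_bp (v := v) (w := w) P hn t4 hv hw
  refine ⟨σ, fun y x hx => ?_⟩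
  obtain ⟨q1, q3⟩ := hσ y
  refine ⟨q1, fun b hb => ?_⟩
  rw [q3, t3, hx, hb]
  rfl

end Pool.Agent.W939.QR
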