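import Mathlib
import Pool.Agent.W939.QR.Main
import Pool.Agent.W939.FR.Main

set_option autoImplicit false

/-!
Total functions: circuits and formulas.
-/

namespace Pool.Agent.W939.QR

open Finset H542 H542.MC Pool.Agent.W939.FR Pool.Agent.W939.PT

/-- Circuits and total functions. -/
theorem total_circ (δ : ℝ) (hδ : 0 < δ) : ∃ ε : ℝ, 0 < ε ∧ ∃ C : ℕ, ∀ n s w : ℕ, 1 ≤ n →
    (n + 1) ^ C ≤ s → n + s ≤ 2 ^ w → ∀ (f : (Fin n → Bool) → Bool) (a L S : ℕ),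
      (a : ℝ) ≤ (s : ℝ) ^ ε → (L : ℝ) ≤ (s : ℝ) ^ (2 - δ) →
        Nonempty (H542.MC.Refutation s w f a L S) → (2 : ℝ) ^ ((s : ℝ) ^ ε) ≤ S := by
  obtain ⟨ε, hε, C, h⟩ := main_circ δ hδ
  refine ⟨ε, hε, C, fun n s w hn hs hw f a L S ha hL ⟨R⟩ => ?_⟩
  exact h n s w hn hs hw (fun x => some (f x)) (Correct f)
    (fun x z k1 _ k3 => ⟨k1, k3 (f x) rfl⟩) a L S ha hL ⟨⟨R.line, R.size_le, R.sound, R.final⟩⟩

/-- Formulas and total functions. -/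
theorem total_form (δ : ℝ) (hδ : 0 < δ) : ∃ ε : ℝ, 0 < ε ∧ ∃ C : ℕ, ∀ n s w : ℕ, 1 ≤ n →
    (n + 1) ^ C ≤ s → n + s ≤ 2 ^ w → ∀ (f : (Fin n → Bool) → Bool) (a L S : ℕ),
      (a : ℝ) ≤ (s : ℝ) ^ ε → (L : ℝ) ≤ (s : ℝ) ^ (2 - δ) →
        Nonempty (Pool.Agent.W939.FR.Refutation s w f a L S) →
          (2 : ℝ) ^ ((s : ℝ) ^ ε) ≤ S := by
  obtain ⟨ε, hε, C, h⟩ := main_circ δ hδ
  refine ⟨ε, hε, C, fun n s w hn hs hw f a L S ha hL ⟨R⟩ => ?_⟩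
  exact h n s w hn hs hw (fun x => some (f x)) (FormulaCorrect f)
    (fun x z k1 k2 k3 => ⟨k1, k2, k3 (f x) rfl⟩) a L S ha hL
    ⟨⟨R.line, R.size_le, R.sound, R.final⟩⟩

end Pool.Agent.W939.QR
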